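import Pool.Agent.W5h40.WlpE.Even
import Pool.Agent.W5h40.WlpE.Three2

set_option autoImplicit false

open MvPolynomial

namespace Pool.Agent.W5h40.WlpQ

open Pool.Agent.Helper720.Pow Pool.Agent.W5h40.Wlp

variable {K : Type*} [Field K] {n : ℕ}

/-- the linear functional with given values on the monomials -/
noncomputable def Lam (θ : (Fin n →₀ ℕ) → K) : MvPolynomial (Fin n) K →ₗ[K] K :=
  (basisMonomials (Fin n) K).constr K θ

lemma Lam_monomial (θ : (Fin n →₀ ℕ) → K) (w : Fin n →₀ ℕ) : Lam θ (monomial w 1) = θ w := by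
  have := (basisMonomials (Fin n) K).constr_basis K θ w
  rwa [coe_basisMonomials] at this

lemma lin_zero (T : MvPolynomial (Fin n) K →ₗ[K] K) (F : MvPolynomial (Fin n) K)
    (h : ∀ w ∈ F.support, T (monomial w 1) = 0) : T F = 0 := by
  rw [F.as_sum, map_sum]
  refine Finset.sum_eq_zero fun w hw => ?_
  have h1 : monomial w (coeff w F) = coeff w F • monomial w (1 : K) := by
    rw [smul_monomial, smul_eq_mul, mul_one]
  rw [h1, map_smul, h w hw, smul_zero]

/-- the derivation `∑ x_c ^ 2 ∂_c` -/
noncomputable def Th (K : Type*) [Field K] (n : ℕ) :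
    Derivation K (MvPolynomial (Fin n) K) (MvPolynomial (Fin n) K) :=
  mkDerivation K fun c => X c ^ 2

lemma Th_monomial (w : Fin n →₀ ℕ) : Th K n (monomial w 1) =
    ∑ c, (w c : K) • monomial (w + Finsupp.single c 1) 1 := by
  unfold Th
  rw [mkDerivation_monomial, one_smul, Finsupp.sum_fintype]
  · refine Finset.sum_congr rfl fun c _ => ?_
    rw [smul_eq_mul, X_pow_eq_monomial, monomial_mul, mul_one, smul_monomial, smul_eq_mul, mul_one]
    by_cases h : w c = 0
    · rw [h, Nat.cast_zero, monomial_zero, monomial_zero]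
    · have h1 : w - Finsupp.single c 1 + Finsupp.single c 2 = w + Finsupp.single c 1 := by
        ext x
        rw [Finsupp.add_apply, Finsupp.tsub_apply, Finsupp.add_apply]
        by_cases hx : c = x
        · subst hx
          simp only [Finsupp.single_eq_same]
          omega
        · simp only [Finsupp.single_apply, if_neg hx]
          omega
      rw [h1]
  · intro c
    rw [Nat.cast_zero, monomial_zero, zero_smul]

/-- the raising operator -/
noncomputable def Eop (S : Finset (Fin n)) : MvPolynomial (Fin n) K →ₗ[K] MvPolynomial (Fin n) K :=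
  ∑ c ∈ S, (3 : K) • LinearMap.mulLeft K (X c) - (Th K n : _ →ₗ[K] _)

lemma Eop_apply (S : Finset (Fin n)) (F : MvPolynomial (Fin n) K) :
    Eop S F = ∑ c ∈ S, (3 : K) • (X c * F) - Th K n F := by
  unfold Eop
  rw [LinearMap.sub_apply, LinearMap.sum_apply]
  rfl

/-- the product of the differences along a list of edges -/
noncomputable def mon (K : Type*) [Field K] (L : List (Fin n × Fin n)) : MvPolynomial (Fin n) K :=
  (L.map fun e => X e.1 - X e.2).prod

def ind (e : Fin n × Fin n) (c : Fin n) : ℕ := (if e.1 = c then 1 else 0) + (if e.2 = c then 1 else 0)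

def dg (L : List (Fin n × Fin n)) (c : Fin n) : ℕ := (L.map fun e => ind e c).sum

lemma mon_cons (e : Fin n × Fin n) (L : List (Fin n × Fin n)) :
    mon K (e :: L) = (X e.1 - X e.2) * mon K L := by
  unfold mon
  rw [List.map_cons, List.prod_cons]

lemma dg_cons (e : Fin n × Fin n) (L : List (Fin n × Fin n)) (c : Fin n) :
    dg (e :: L) c = ind e c + dg L c := by
  unfold dg
  rw [List.map_cons, List.sum_cons]

lemma sum_ind (e : Fin n × Fin n) (f : Fin n → MvPolynomial (Fin n) K) :
    ∑ c, (ind e c : K) • f c = f e.1 + f e.2 := by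
  unfold ind
  simp only [Nat.cast_add, Nat.cast_ite, Nat.cast_one, Nat.cast_zero, add_smul, ite_smul, one_smul,
    zero_smul, Finset.sum_add_distrib, Finset.sum_ite_eq, Finset.mem_univ, if_true]

lemma Th_mon (L : List (Fin n × Fin n)) :
    Th K n (mon K L) = ∑ c, (dg L c : K) • (X c * mon K L) := by
  induction L with
  | nil =>
    unfold mon dg
    simp
  | cons e L ih =>
    have h1 : Th K n (X e.1 - X e.2) = (X e.1 + X e.2) * (X e.1 - X e.2) := by
      unfold Th
      rw [map_sub, mkDerivation_X, mkDerivation_X]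
      ring
    rw [mon_cons, Derivation.leibniz, ih, h1]
    have h2 : ∀ c, ((dg (e :: L) c : ℕ) : K) • (X c * ((X e.1 - X e.2) * mon K L)) =
        (X e.1 - X e.2) * ((dg L c : K) • (X c * mon K L)) +
        mon K L * (X e.1 - X e.2) * ((ind e c : K) • X c) := by
      intro c
      rw [dg_cons, Nat.cast_add, add_smul, mul_smul_comm, mul_smul_comm, add_comm]
      congr 2 <;> ring
    rw [Finset.sum_congr rfl fun c _ => h2 c, Finset.sum_add_distrib, ← Finset.mul_sum,
      ← Finset.mul_sum, sum_ind]
    simp only [smul_eq_mul]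
    ring

/-- the raising operator on a monomial times a product of differences -/
lemma Eop_mon (S : Finset (Fin n)) (u : Fin n →₀ ℕ) (L : List (Fin n × Fin n))
    (hS : ∀ c, c ∉ S → u c = 0 ∧ dg L c = 0) :
    Eop S (monomial u 1 * mon K L) =
      ∑ c ∈ S, ((3 : K) - u c - dg L c) • (monomial (u + Finsupp.single c 1) 1 * mon K L) := by
  rw [Eop_apply, Derivation.leibniz, Th_mon, Th_monomial]
  have h1 : ∀ c, monomial (u + Finsupp.single c 1) (1 : K) * mon K L =
      X c * (monomial u 1 * mon K L) := by
    intro c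
    rw [← mul_assoc, X, monomial_mul, one_mul, add_comm]
  have h2 : ∑ c, (u c : K) • (X c * (monomial u 1 * mon K L)) =
      ∑ c ∈ S, (u c : K) • (X c * (monomial u 1 * mon K L)) := by
    symm
    apply Finset.sum_subset (Finset.subset_univ S)
    intro c _ hc
    rw [(hS c hc).1, Nat.cast_zero, zero_smul]
  have h3 : ∑ c, (dg L c : K) • (X c * (monomial u 1 * mon K L)) =
      ∑ c ∈ S, (dg L c : K) • (X c * (monomial u 1 * mon K L)) := by
    symm
    apply Finset.sum_subset (Finset.subset_univ S)
    intro c _ hc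
    rw [(hS c hc).2, Nat.cast_zero, zero_smul]
  have h4 : mon K L • ∑ c, (u c : K) • monomial (u + Finsupp.single c 1) (1 : K) =
      ∑ c, (u c : K) • (X c * (monomial u 1 * mon K L)) := by
    rw [Finset.smul_sum]
    refine Finset.sum_congr rfl fun c _ => ?_
    rw [← h1, smul_eq_mul, mul_smul_comm, mul_comm (mon K L)]
  have h5 : monomial u (1 : K) • ∑ c, (dg L c : K) • (X c * mon K L) =
      ∑ c, (dg L c : K) • (X c * (monomial u 1 * mon K L)) := by
    rw [Finset.smul_sum]
    refine Finset.sum_congr rfl fun c _ => ?_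
    rw [smul_eq_mul, mul_smul_comm]
    congr 1
    ring
  rw [h4, h5, h2, h3, ← Finset.sum_add_distrib, ← Finset.sum_sub_distrib]
  refine Finset.sum_congr rfl fun c _ => ?_
  rw [h1, sub_smul, sub_smul]
  abel

end Pool.Agent.W5h40.WlpQ
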