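import Pool.Agent.W5h40.WlpQ.D

set_option autoImplicit false

open MvPolynomial

namespace Pool.Agent.W5h40.WlpQ

open Pool.Agent.Helper720.Pow Pool.Agent.W5h40.Wlp
open Pool.Agent.W5h40.WlpE (sum_upd coe_sub_single)

variable {K : Type*} [Field K] {n : ℕ}

lemma rel1' {i M : ℕ} {v : (Fin n → ℕ) → K} (hv : Ker4 i v) {F : MvPolynomial (Fin n) K} {m : ℕ}
    (hF : F.IsHomogeneous m) (hi : i + M = 3 * n) (hm : m + 1 = M) :
    phi v (Eop Finset.univ F) = 0 := by
  have h1 := lin_zero ((phi v).comp (Eop Finset.univ)) F (by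
    intro w hw
    rw [LinearMap.comp_apply]
    have := degree_of_coeff hF (mem_support_iff.1 hw)
    exact rel1 hv w (by omega))
  exact h1

/-- the functional vanishes on monomials times graph monomials -/
theorem FFT [CharZero K] {i M : ℕ} {v : (Fin n → ℕ) → K} (hv : Ker4 i v) (hi : 2 * i = 3 * n + 5)
    (hM : 2 * M + 5 = 3 * n) : ∀ (m : ℕ) (u : Fin n →₀ ℕ) (L : List (Fin n × Fin n)),
      u.degree = m → (∀ c, u c + dg L c ≤ 3) → m + L.length = M →
      phi v (monomial u 1 * mon K L) = 0 := by
  have hU : HU (phi v) M := fun L hL hdeg c0 hc0 => U hv hi L (by omega) hdeg c0 hc0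
  intro m
  induction m with
  | zero =>
    intro u L hu hdeg hlen
    have hu0 : u = 0 := (Finsupp.degree_eq_zero_iff u).1 hu
    subst hu0
    have h3 : (monomial 0 1 : MvPolynomial (Fin n) K) = 1 := rfl
    rw [h3, one_mul]
    exact Z hU hM (by omega) (fun c => by
      have := hdeg c
      omega)
  | succ m ih =>
    intro u L hu hdeg hlen
    obtain ⟨c, hc⟩ : ∃ c, u c ≠ 0 := by
      by_contra hcon
      push Not at hcon
      have : u = 0 := Finsupp.ext hcon
      rw [this, map_zero] at hu
      omega
    set u' := u - Finsupp.single c 1 with hu'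
    have hadd : u' + Finsupp.single c 1 = u :=
      tsub_add_cancel_of_le (Finsupp.single_le_iff.2 (Nat.one_le_iff_ne_zero.2 hc))
    have hdeg' : u'.degree = m := by
      have := congrArg Finsupp.degree hadd
      rw [map_add, Finsupp.degree_single] at this
      omega
    have hle : ∀ x, u' x + (if c = x then 1 else 0) = u x := by
      intro x
      rw [← Finsupp.single_apply, ← Finsupp.add_apply, hadd]
    have hterm : ∀ c', u' c' + dg L c' < 3 →
        phi v (monomial (u' + Finsupp.single c' 1) 1 * mon K L) =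
        phi v (monomial u 1 * mon K L) := by
      intro c' hc'
      by_cases hcc : c = c'
      · rw [← hcc, hadd]
      · have h1 := ih u' ((c', c) :: L) hdeg' (by
          intro x
          rw [dg_cons]
          have h2 := hle x
          have h3 := hdeg x
          unfold ind
          simp only
          by_cases hx : c = x
          · subst hx
            rw [if_pos rfl] at h2 ⊢
            rw [if_neg (Ne.symm hcc)]
            omega
          · rw [if_neg hx] at h2 ⊢
            by_cases hx' : c' = x
            · subst hx'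
              rw [if_pos rfl]
              omega
            · rw [if_neg hx']
              omega) (by
          rw [List.length_cons]
          omega)
        rw [mon_cons] at h1
        rw [← sub_eq_zero, ← map_sub, ← h1, ← hadd]
        congr 1
        have e : ∀ y, (monomial (u' + Finsupp.single y 1) 1 : MvPolynomial (Fin n) K) =
            monomial u' 1 * X y := by
          intro y
          rw [X, monomial_mul, one_mul]
        rw [e, e]
        ring
    have h1 := rel1' hv (M := M) ((isHomogeneous_monomial (R := K) 1 hdeg').mul (mon_hom L))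
      (by omega) (by omega)
    rw [Eop_mon _ _ _ (fun c hc => absurd (Finset.mem_univ c) hc), map_sum] at h1
    have h2 : ∀ c' ∈ (Finset.univ : Finset (Fin n)),
        phi v (((3 : K) - u' c' - dg L c') • (monomial (u' + Finsupp.single c' 1) 1 * mon K L)) =
        ((3 - u' c' - dg L c' : ℕ) : K) * phi v (monomial u 1 * mon K L) := by
      intro c' _
      rw [map_smul, smul_eq_mul]
      have h3 := hle c'
      have h4 := hdeg c'
      have h5 : u' c' + dg L c' ≤ 3 := by omega
      have h6 : (3 : K) - u' c' - dg L c' = ((3 - u' c' - dg L c' : ℕ) : K) := by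
        rw [Nat.sub_sub, Nat.cast_sub h5, Nat.cast_add, sub_sub]
        norm_num
      rw [h6]
      rcases h5.lt_or_eq with h7 | h7
      · rw [hterm c' h7]
      · rw [Nat.sub_sub, h7, Nat.sub_self, Nat.cast_zero, zero_mul, zero_mul]
    rw [Finset.sum_congr rfl h2, ← Finset.sum_mul, ← Nat.cast_sum] at h1
    refine (mul_eq_zero.1 h1).resolve_left (Nat.cast_ne_zero.2 ?_)
    have h3 : ∑ c', ((3 - u' c' - dg L c') + dg L c' + u' c') = 3 * n := by
      have : ∀ c', (3 - u' c' - dg L c') + dg L c' + u' c' = 3 := fun c' => by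
        have h3 := hle c'
        have h4 := hdeg c'
        omega
      rw [Finset.sum_congr rfl fun c _ => this c, Finset.sum_const, Finset.card_univ,
        Fintype.card_fin, smul_eq_mul, mul_comm]
    rw [Finset.sum_add_distrib, Finset.sum_add_distrib, sum_dg, ← Finsupp.degree_eq_sum,
      hdeg'] at h3
    omega

/-- the coefficients outside `J` vanish -/
theorem low [CharZero K] {i : ℕ} {v : (Fin n → ℕ) → K} (hv : Ker4 i v) (hi : 2 * i = 3 * n + 5)
    (w : Fin n → ℕ) (hs : ∑ c, w c = i) (hw : ∀ c, w c ≤ 3) : v w = 0 := by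
  have h1 := sum_cmp hw
  set u : Fin n →₀ ℕ := Finsupp.equivFunOnFinite.symm (cmp w) with hu
  have hcu : ⇑u = cmp w := rfl
  have hud : u.degree = ∑ c, cmp w c := by rw [Finsupp.degree_eq_sum, hcu]
  have hu3 : ∀ c, u c ≤ 3 := fun c => by
    rw [hcu]
    unfold cmp
    omega
  have h2 := FFT hv hi (M := u.degree) (by omega) u.degree u [] rfl (fun c => by
    show u c + 0 ≤ 3
    exact hu3 c) rfl
  have h3 : mon K ([] : List (Fin n × Fin n)) = 1 := rfl
  rw [h3, mul_one, phi, Lam_monomial] at h2
  unfold tht at h2
  rw [if_pos hu3] at h2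
  have h4 := (mul_eq_zero.1 h2).resolve_left (Finset.prod_ne_zero_iff.2 fun c _ =>
    Nat.cast_ne_zero.2 (Nat.factorial_ne_zero _))
  have h5 : cmp (⇑u) = w := by
    rw [hcu]
    funext c
    unfold cmp
    have := hw c
    omega
  have h6 : v (cmp (⇑u)) = 0 := h4
  rwa [h5] at h6

def KerD {n : ℕ} (d k i : ℕ) (v : (Fin n → ℕ) → K) : Prop :=
  ∀ W : Fin n → ℕ, ∑ c, W c = i + 1 → ∑ c, W c / d < k →
    ∑ c, (if W c = 0 then 0 else v (Function.update W c (W c - 1))) = 0

lemma trivD_of_inj {d k i : ℕ} (hd : 1 ≤ d) (h : InjAt K n d k i 1) (v : (Fin n → ℕ) → K)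
    (hv : KerD d k i v) : ∀ w : Fin n → ℕ, ∑ c, w c = i → ∑ c, w c / d < k → v w = 0 := by
  classical
  set f := toPoly K n d k i (fun w => v (⇑(w : Fin n →₀ ℕ))) with hf
  have hc : ∀ w : Fin n →₀ ℕ, w.degree = i → fl d w < k → coeff w f = v (⇑w) := by
    intro w hw hfl
    exact coeff_toPoly (fun w : ↥(Bs n d k i) => v (⇑(w : Fin n →₀ ℕ))) ⟨w, mem_Bs.2 ⟨hw, hfl⟩⟩
  have h1 : el K n ^ 1 * f ∈ powIdeal K n d k := by
    rw [pow_one]
    apply mem_of_coeff hd (el_mul_hom (toPoly_hom _))
    intro W hW hfl
    rw [coeff_el_mul]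
    refine Eq.trans (Finset.sum_congr rfl fun c _ => ?_) (hv (⇑W)
      (by rw [← Finsupp.degree_eq_sum, hW]) hfl)
    by_cases h0 : W c = 0
    · rw [if_pos h0, if_pos h0]
    · rw [if_neg h0, if_neg h0, hc, coe_sub_single]
      · have := sum_upd (⇑W) c (W c - 1)
        rw [Finsupp.degree_eq_sum, coe_sub_single]
        rw [Finsupp.degree_eq_sum] at hW
        omega
      · refine lt_of_le_of_lt ?_ hfl
        show ∑ x, (W - Finsupp.single c 1 : Fin n →₀ ℕ) x / d ≤ ∑ x, W x / d
        refine Finset.sum_le_sum fun x _ => Nat.div_le_div_right ?_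
        rw [Finsupp.tsub_apply]
        exact Nat.sub_le _ _
  have h2 := h f (toPoly_hom _) h1
  rw [mem_powIdeal hd] at h2
  intro w hs hfl
  have h4 : fl d (Finsupp.equivFunOnFinite.symm w) < k := hfl
  have h5 : (Finsupp.equivFunOnFinite.symm w).degree = i := by
    rw [Finsupp.degree_eq_sum]
    exact hs
  have h6 := h2 _ h4
  rw [hc _ h5 h4] at h6
  exact h6

lemma injD_of_triv {d k i : ℕ} (hd : 1 ≤ d)
    (h : ∀ v : (Fin n → ℕ) → K, KerD d k i v →
      ∀ w : Fin n → ℕ, ∑ c, w c = i → ∑ c, w c / d < k → v w = 0) :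
    InjAt K n d k i 1 := by
  intro f hf hJ
  rw [pow_one, mem_powIdeal hd] at hJ
  set v : (Fin n → ℕ) → K := fun w => coeff (Finsupp.equivFunOnFinite.symm w) f with hv
  have hker : KerD d k i v := by
    intro w hs hfl
    have h1 := hJ (Finsupp.equivFunOnFinite.symm w) hfl
    rw [coeff_el_mul] at h1
    refine Eq.trans (Finset.sum_congr rfl fun c _ => ?_) h1
    have h2 : (Finsupp.equivFunOnFinite.symm w : Fin n →₀ ℕ) c = w c := rfl
    rw [h2]
    by_cases hc : w c = 0
    · rw [if_pos hc, if_pos hc]
    · rw [if_neg hc, if_neg hc, hv]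
      simp only
      congr 1
      apply DFunLike.coe_injective
      rw [coe_sub_single]
      rfl
  have h1 := h v hker
  apply mem_of_coeff hd hf
  intro w hw hfl
  have h2 := h1 (⇑w) (by rw [← Finsupp.degree_eq_sum, hw]) hfl
  rw [hv] at h2
  simp only at h2
  have h3 : Finsupp.equivFunOnFinite.symm (⇑w) = w := Finsupp.equivFunOnFinite_symm_coe w
  rwa [h3] at h2

/-- `d = 4`, `k = 2`, `n` odd -/
theorem inj_42 [CharZero K] {i : ℕ} (hi : 2 * i = 3 * n + 5) (h8 : 8 ≤ i) : InjAt K n 4 2 i 1 := by
  refine injD_of_triv (by norm_num) ?_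
  intro v hv w hs hfl
  have hlow := low hv hi
  by_cases hw : ∀ c, w c ≤ 3
  · exact hlow w hs hw
  push Not at hw
  obtain ⟨c0, hc0⟩ := hw
  have hfl' := hfl
  rw [← Finset.add_sum_erase _ _ (Finset.mem_univ c0)] at hfl'
  have hother : ∀ c, c ≠ c0 → w c ≤ 3 := by
    intro c hc
    have h1 : w c / 4 ≤ ∑ x ∈ Finset.univ.erase c0, w x / 4 :=
      Finset.single_le_sum (f := fun x => w x / 4) (fun _ _ => Nat.zero_le _)
        (Finset.mem_erase.2 ⟨hc, Finset.mem_univ c⟩)
    omega
  have hc7 : w c0 ≤ 7 := by omega
  set g : (Fin n → ℕ) → K := fun u => v (Function.update u c0 (u c0 + 4)) with hg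
  have hker : KerD 4 1 (i - 4) g := by
    intro W hW hWfl
    have hW3 : ∀ c, W c ≤ 3 := by
      intro c
      have h1 : W c / 4 ≤ ∑ x, W x / 4 :=
        Finset.single_le_sum (f := fun x => W x / 4) (fun _ _ => Nat.zero_le _)
          (Finset.mem_univ c)
      omega
    have s1 := sum_upd W c0 (W c0 + 4)
    have h1 := hv (Function.update W c0 (W c0 + 4)) (by omega) (by
      rw [← Finset.add_sum_erase _ _ (Finset.mem_univ c0), Function.update_self,
        Finset.sum_eq_zero]
      · have := hW3 c0
        omega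
      · intro c hc
        rw [Function.update_of_ne (Finset.ne_of_mem_erase hc)]
        have := hW3 c
        omega)
    rw [← Finset.add_sum_erase _ _ (Finset.mem_univ c0)] at h1 ⊢
    refine Eq.trans (congrArg₂ (· + ·) ?_ (Finset.sum_congr rfl fun c hc => ?_)) h1
    · rw [Function.update_self, Function.update_idem, if_neg (by omega : ¬ W c0 + 4 = 0)]
      by_cases h0 : W c0 = 0
      · rw [if_pos h0]
        symm
        have s2 := sum_upd W c0 (W c0 + 4 - 1)
        apply hlow
        · omega
        · intro c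
          by_cases hc : c = c0
          · rw [hc, Function.update_self]
            omega
          · rw [Function.update_of_ne hc]
            exact hW3 c
      · rw [if_neg h0, hg]
        simp only [Function.update_self, Function.update_idem]
        congr 2
        omega
    · have hcc := Finset.ne_of_mem_erase hc
      rw [Function.update_of_ne hcc]
      by_cases h0 : W c = 0
      · rw [if_pos h0, if_pos h0]
      · rw [if_neg h0, if_neg h0, hg]
        simp only
        rw [Function.update_of_ne hcc.symm, Function.update_comm hcc]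
  have hinj : InjAt K n 4 1 (i - 4) 1 := inj_k1 (by norm_num) (by omega)
  have s3 := sum_upd w c0 (w c0 - 4)
  have h2 := trivD_of_inj (by norm_num) hinj g hker (Function.update w c0 (w c0 - 4)) (by omega) (by
    rw [Finset.sum_eq_zero]
    · norm_num
    · intro c _
      by_cases hc : c = c0
      · rw [hc, Function.update_self]
        omega
      · rw [Function.update_of_ne hc]
        have := hother c hc
        omega)
  rw [hg] at h2
  simp only [Function.update_self, Function.update_idem] at h2
  rw [show w c0 - 4 + 4 = w c0 by omega, Function.update_eq_self] at h2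
  exact h2

end Pool.Agent.W5h40.WlpQ
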