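import Pool.Agent.W5h40.WlpP.All
import Pool.Agent.W5h40.WlpQ.E

set_option autoImplicit false

open MvPolynomial

namespace Pool.Agent.W5h40.WlpQ

open Pool.Agent.Helper720.Pow Pool.Agent.W5h40.Wlp
open Pool.Agent.W5h40.WlpE (rank_of_inj_mid)
open Pool.Agent.W5h40.WlpP (GoodA LeftA rankA not_maxRankA)

variable {K : Type*} [Field K] {n : ℕ}

/-- the cases with the weak Lefschetz property -/
def GoodB (n d k : ℕ) : Prop :=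
  d = 1 ∨ k = 1 ∨ (k = 2 ∧ d ≤ 3) ∨ (Odd n ∧ ((d = 2 ∧ k = 3) ∨ (d = 4 ∧ k = 2))) ∨
    (n = 4 ∧ ((d = 2 ∧ k = 3) ∨ (d = 4 ∧ k = 2))) ∨ (n = 5 ∧ d = 2 ∧ k ≤ 7) ∨
    (n = 7 ∧ d = 2 ∧ k = 4)

/-- the cases which are not decided -/
def LeftB (n d k : ℕ) : Prop :=
  (n = 5 ∧ d = 4 ∧ k = 3) ∨ (n = 5 ∧ d = 6 ∧ k = 2) ∨ (n = 7 ∧ d = 6 ∧ k = 2)

theorem not_maxRankB [CharZero K] {d k i : ℕ} (hn : 4 ≤ n) (hd : 1 ≤ d) (hk : 1 ≤ k)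
    (hl : ¬ LeftB n d k) (h : ¬ GoodB n d k) (hi : i + 1 = (k - 1) * d + n * (d - 1) / 2)
    {L : MvPolynomial (Fin n) K} (hL : L.IsHomogeneous 1) :
    ¬ MaxRank (powIdeal K n d k) L i := by
  refine not_maxRankA hn hd hk ?_ ?_ hi hL
  · rintro (⟨h1, h2, h3⟩ | h1 | ⟨h1, h2, h3⟩)
    · exact h (Or.inr (Or.inr (Or.inr (Or.inl ⟨h1, Or.inr ⟨h2, h3⟩⟩))))
    · exact hl (Or.inl h1)
    · rcases h3 with h3 | h3
      · exact hl (Or.inr (Or.inl ⟨h3, h1, h2⟩))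
      · exact hl (Or.inr (Or.inr ⟨h3, h1, h2⟩))
  · rintro (h1 | h1 | h1 | h1 | h1 | h1 | h1)
    · exact h (Or.inl h1)
    · exact h (Or.inr (Or.inl h1))
    · exact h (Or.inr (Or.inr (Or.inl h1)))
    · exact h (Or.inr (Or.inr (Or.inr (Or.inr (Or.inl h1)))))
    · exact h (Or.inr (Or.inr (Or.inr (Or.inl ⟨h1.1, Or.inl h1.2⟩))))
    · exact h (Or.inr (Or.inr (Or.inr (Or.inr (Or.inr (Or.inl h1))))))
    · exact h (Or.inr (Or.inr (Or.inr (Or.inr (Or.inr (Or.inr h1))))))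

theorem rankB [CharZero K] {d k : ℕ} (hn : 4 ≤ n) (hd : 1 ≤ d) (hk : 1 ≤ k) (h : GoodB n d k)
    (i : ℕ) : InjAt K n d k i 1 ∨ SurjAt K n d k i 1 := by
  rcases h with h | h | h | ⟨h1, h2 | ⟨h2, h3⟩⟩ | h | h | h
  · exact rankA hn hd hk (Or.inl h) i
  · exact rankA hn hd hk (Or.inr (Or.inl h)) i
  · exact rankA hn hd hk (Or.inr (Or.inr (Or.inl h))) i
  · exact rankA hn hd hk (Or.inr (Or.inr (Or.inr (Or.inr (Or.inl ⟨h1, h2⟩))))) i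
  · obtain ⟨r, hr⟩ := h1
    subst h2 h3
    exact rank_of_inj_mid (by omega) (by norm_num) (by norm_num) (i := 3 * r + 4) (by omega)
      (inj_42 (by omega) (by omega)) i
  · exact rankA hn hd hk (Or.inr (Or.inr (Or.inr (Or.inl h)))) i
  · exact rankA hn hd hk (Or.inr (Or.inr (Or.inr (Or.inr (Or.inr (Or.inl h)))))) i
  · exact rankA hn hd hk (Or.inr (Or.inr (Or.inr (Or.inr (Or.inr (Or.inr h)))))) i

end Pool.Agent.W5h40.WlpQ
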