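import Pool.Agent.W5h40.WlpQ.A

set_option autoImplicit false

open MvPolynomial

namespace Pool.Agent.W5h40.WlpQ

open Pool.Agent.Helper720.Pow Pool.Agent.W5h40.Wlp
open Pool.Agent.W5h40.WlpE (sum_upd coe_sub_single)

variable {K : Type*} [Field K] {n : ℕ}

/-- the coefficients of an element of degree `i` killed by the sum of the variables, `d = 4`,
`k = 2` -/
def Ker4 (i : ℕ) (v : (Fin n → ℕ) → K) : Prop :=
  ∀ W : Fin n → ℕ, ∑ c, W c = i + 1 → ∑ c, W c / 4 < 2 →
    ∑ c, (if W c = 0 then 0 else v (Function.update W c (W c - 1))) = 0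

/-- weights -/
noncomputable def tht (g : (Fin n → ℕ) → K) (w : Fin n →₀ ℕ) : K :=
  if ∀ c, w c ≤ 3 then (∏ c, ((3 - w c).factorial : K)) * g (⇑w) else 0

/-- the complementary exponents -/
def cmp (w : Fin n → ℕ) : Fin n → ℕ := fun c => 3 - w c

/-- the functional `φ` -/
noncomputable def phi (v : (Fin n → ℕ) → K) : MvPolynomial (Fin n) K →ₗ[K] K :=
  Lam (tht fun w => v (cmp w))

/-- the functional `Λ_j` -/
noncomputable def lam (v : (Fin n → ℕ) → K) (c0 : Fin n) (j : ℕ) :
    MvPolynomial (Fin n) K →ₗ[K] K :=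
  Lam (tht fun w => v (Function.update (cmp w) c0 j))

lemma coe_add_single (w : Fin n →₀ ℕ) (c : Fin n) :
    ⇑(w + Finsupp.single c 1 : Fin n →₀ ℕ) = Function.update (⇑w) c (w c + 1) := by
  funext x
  rw [Finsupp.add_apply, Finsupp.single_apply]
  by_cases h : c = x
  · subst h
    rw [if_pos rfl, Function.update_self]
  · rw [if_neg h, Function.update_of_ne (Ne.symm h), add_zero]

lemma tht_add (g : (Fin n → ℕ) → K) {w : Fin n →₀ ℕ} (hw : ∀ c, w c ≤ 3) (c : Fin n) :
    ((3 : K) - w c) * tht g (w + Finsupp.single c 1) =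
      (∏ x, ((3 - w x).factorial : K)) *
        (if w c = 3 then 0 else g (Function.update (⇑w) c (w c + 1))) := by
  by_cases h : w c = 3
  · rw [if_pos h, h, mul_zero]
    norm_num
  · rw [if_neg h]
    have h3 : w c < 3 := lt_of_le_of_ne (hw c) h
    unfold tht
    rw [if_pos, coe_add_single, ← mul_assoc]
    · congr 1
      rw [← Finset.mul_prod_erase _ _ (Finset.mem_univ c),
        ← Finset.mul_prod_erase _ (fun x => ((3 - w x).factorial : K)) (Finset.mem_univ c),
        ← mul_assoc]
      congr 1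
      · rw [Function.update_self]
        have e : 3 - w c = (3 - (w c + 1)) + 1 := by omega
        have e2 : (3 : K) - w c = (((3 - (w c + 1)) + 1 : ℕ) : K) := by
          rw [← e, Nat.cast_sub (hw c)]
          norm_num
        rw [e2, e, Nat.factorial_succ, Nat.cast_mul]
      · refine Finset.prod_congr rfl fun x hx => ?_
        rw [Function.update_of_ne (Finset.ne_of_mem_erase hx)]
    · intro x
      rw [coe_add_single]
      by_cases hx : x = c
      · rw [hx, Function.update_self]
        omega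
      · rw [Function.update_of_ne hx]
        exact hw x

lemma tht_add_zero (g : (Fin n → ℕ) → K) {w : Fin n →₀ ℕ} (hw : ¬ ∀ c, w c ≤ 3) (c : Fin n) :
    tht g (w + Finsupp.single c 1) = 0 := by
  unfold tht
  rw [if_neg]
  intro h
  apply hw
  intro x
  have := h x
  rw [Finsupp.add_apply] at this
  omega

/-- the operator on a monomial -/
lemma Eop_monomial (S : Finset (Fin n)) (w : Fin n →₀ ℕ) (hS : ∀ c, c ∉ S → w c = 0) :
    Eop S (monomial w (1 : K)) =
      ∑ c ∈ S, ((3 : K) - w c) • monomial (w + Finsupp.single c 1) (1 : K) := by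
  have h := Eop_mon (K := K) S w [] (fun c hc => ⟨hS c hc, rfl⟩)
  have h1 : mon K ([] : List (Fin n × Fin n)) = 1 := rfl
  have h2 : ∀ c, dg ([] : List (Fin n × Fin n)) c = 0 := fun c => rfl
  rw [h1, mul_one] at h
  rw [h]
  refine Finset.sum_congr rfl fun c _ => ?_
  rw [h2, Nat.cast_zero, sub_zero, mul_one]

lemma Lam_Eop (g : (Fin n → ℕ) → K) (S : Finset (Fin n)) {w : Fin n →₀ ℕ} (hw : ∀ c, w c ≤ 3)
    (hS : ∀ c, c ∉ S → w c = 0) :
    Lam (tht g) (Eop S (monomial w 1)) = (∏ x, ((3 - w x).factorial : K)) *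
      ∑ c ∈ S, (if w c = 3 then 0 else g (Function.update (⇑w) c (w c + 1))) := by
  rw [Eop_monomial S w hS, map_sum, Finset.mul_sum]
  refine Finset.sum_congr rfl fun c _ => ?_
  rw [map_smul, Lam_monomial, smul_eq_mul, tht_add g hw]

lemma Lam_Eop_zero (g : (Fin n → ℕ) → K) (S : Finset (Fin n)) {w : Fin n →₀ ℕ}
    (hw : ¬ ∀ c, w c ≤ 3) (hS : ∀ c, c ∉ S → w c = 0) :
    Lam (tht g) (Eop S (monomial w 1)) = 0 := by
  rw [Eop_monomial S w hS, map_sum]
  refine Finset.sum_eq_zero fun c _ => ?_
  rw [map_smul, Lam_monomial, tht_add_zero g hw, smul_zero]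

lemma cmp_update (w : Fin n → ℕ) (c : Fin n) (x : ℕ) :
    cmp (Function.update w c x) = Function.update (cmp w) c (3 - x) := by
  funext y
  unfold cmp
  by_cases h : y = c
  · rw [h, Function.update_self, Function.update_self]
  · rw [Function.update_of_ne h, Function.update_of_ne h]

lemma sum_cmp {w : Fin n → ℕ} (hw : ∀ c, w c ≤ 3) : ∑ c, cmp w c + ∑ c, w c = 3 * n := by
  rw [← Finset.sum_add_distrib]
  have : ∀ c, cmp w c + w c = 3 := fun c => Nat.sub_add_cancel (hw c)
  rw [Finset.sum_congr rfl fun c _ => this c, Finset.sum_const, Finset.card_univ,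
    Fintype.card_fin, smul_eq_mul, mul_comm]

/-- the first relation -/
lemma rel1 {i : ℕ} {v : (Fin n → ℕ) → K} (hv : Ker4 i v) (w : Fin n →₀ ℕ)
    (hdeg : i + 1 + w.degree = 3 * n) : phi v (Eop Finset.univ (monomial w 1)) = 0 := by
  unfold phi
  by_cases hw : ∀ c, w c ≤ 3
  · rw [Lam_Eop _ _ hw (fun c hc => absurd (Finset.mem_univ c) hc)]
    apply mul_eq_zero_of_right
    have h1 := sum_cmp hw
    rw [Finsupp.degree_eq_sum] at hdeg
    have h2 := hv (cmp (⇑w)) (by omega) (by
      have : ∀ c, cmp (⇑w) c / 4 = 0 := fun c => Nat.div_eq_of_lt (by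
        unfold cmp
        omega)
      rw [Finset.sum_congr rfl fun c _ => this c, Finset.sum_const_zero]
      norm_num)
    refine Eq.trans (Finset.sum_congr rfl fun c _ => ?_) h2
    have h3 := hw c
    have h4 : cmp (⇑w) c = 3 - w c := rfl
    by_cases h : w c = 3
    · rw [if_pos h, if_pos (by rw [h4]; omega)]
    · rw [if_neg h, if_neg (by rw [h4]; omega), cmp_update, h4]
      rfl
  · exact Lam_Eop_zero _ _ hw (fun c hc => absurd (Finset.mem_univ c) hc)

/-- the second relation -/
lemma rel2 {i : ℕ} {v : (Fin n → ℕ) → K} (hv : Ker4 i v) (c0 : Fin n) {j : ℕ} (hj : j ≤ 6)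
    (w : Fin n →₀ ℕ) (hw0 : w c0 = 0) (hdeg : i + w.degree + 3 = j + 3 * n) :
    lam v c0 j (monomial w 1) + lam v c0 (j + 1) (Eop (Finset.univ.erase c0) (monomial w 1)) =
      0 := by
  have hS : ∀ c, c ∉ Finset.univ.erase c0 → w c = 0 := by
    intro c hc
    rw [Finset.mem_erase, not_and_or] at hc
    rcases hc with hc | hc
    · rw [not_not.1 hc, hw0]
    · exact absurd (Finset.mem_univ c) hc
  unfold lam
  by_cases hw : ∀ c, w c ≤ 3
  · rw [Lam_Eop _ _ hw hS, Lam_monomial]
    unfold tht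
    rw [if_pos hw, ← mul_add]
    apply mul_eq_zero_of_right
    have h1 := sum_cmp hw
    rw [Finsupp.degree_eq_sum] at hdeg
    have s1 := sum_upd (cmp (⇑w)) c0 (j + 1)
    have h4 : ∀ c, cmp (⇑w) c = 3 - w c := fun c => rfl
    rw [h4 c0, hw0] at s1
    have h2 := hv (Function.update (cmp (⇑w)) c0 (j + 1)) (by omega) (by
      rw [← Finset.add_sum_erase _ _ (Finset.mem_univ c0), Function.update_self]
      rw [Finset.sum_eq_zero, add_zero]
      · omega
      · intro c hc
        rw [Function.update_of_ne (Finset.ne_of_mem_erase hc), h4]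
        exact Nat.div_eq_of_lt (by omega))
    rw [← Finset.add_sum_erase _ _ (Finset.mem_univ c0), Function.update_self,
      if_neg (Nat.succ_ne_zero j), Nat.add_sub_cancel, Function.update_idem] at h2
    refine Eq.trans (congrArg (_ + ·) (Finset.sum_congr rfl fun c hc => ?_)) h2
    have hc0 := Finset.ne_of_mem_erase hc
    have h3 := hw c
    rw [Function.update_of_ne hc0, h4]
    by_cases h : w c = 3
    · rw [if_pos h, if_pos (by omega)]
    · rw [if_neg h, if_neg (by omega), cmp_update, Function.update_comm hc0]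
      rfl
  · rw [Lam_Eop_zero _ _ hw hS, Lam_monomial]
    unfold tht
    rw [if_neg hw, add_zero]

end Pool.Agent.W5h40.WlpQ
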