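import Pool.Agent.W5h40.WlpQ.B

set_option autoImplicit false

open MvPolynomial

namespace Pool.Agent.W5h40.WlpQ

open Pool.Agent.Helper720.Pow Pool.Agent.W5h40.Wlp
open Pool.Agent.W5h40.WlpE (sum_upd coe_sub_single)

variable {K : Type*} [Field K] {n : ℕ}

lemma mon_supported {c0 : Fin n} {L : List (Fin n × Fin n)} (h : dg L c0 = 0) :
    mon K L ∈ supported K ({c0}ᶜ : Set (Fin n)) := by
  induction L with
  | nil => exact one_mem _
  | cons e L ih =>
    rw [dg_cons, Nat.add_eq_zero_iff] at h
    obtain ⟨h1, h2⟩ := h
    unfold ind at h1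
    rw [Nat.add_eq_zero_iff] at h1
    obtain ⟨h3, h4⟩ := h1
    rw [mon_cons]
    refine mul_mem (sub_mem ?_ ?_) (ih h2)
    · rw [X_mem_supported]
      intro h5
      rw [Set.mem_singleton_iff] at h5
      rw [if_pos h5] at h3
      exact one_ne_zero h3
    · rw [X_mem_supported]
      intro h5
      rw [Set.mem_singleton_iff] at h5
      rw [if_pos h5] at h4
      exact one_ne_zero h4

lemma supp_zero {c0 : Fin n} {F : MvPolynomial (Fin n) K}
    (h : F ∈ supported K ({c0}ᶜ : Set (Fin n))) {w : Fin n →₀ ℕ} (hw : w ∈ F.support) :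
    w c0 = 0 := by
  by_contra hne
  have h1 : c0 ∈ F.vars := (mem_vars_iff_mem_support c0).2 ⟨w, hw, Finsupp.mem_support_iff.2 hne⟩
  have h2 := (mem_supported.1 h) (Finset.mem_coe.2 h1)
  exact h2 rfl

lemma mon_hom (L : List (Fin n × Fin n)) : (mon K L).IsHomogeneous L.length := by
  induction L with
  | nil => exact isHomogeneous_one _ _
  | cons e L ih =>
    rw [mon_cons, List.length_cons, add_comm]
    exact ((isHomogeneous_X _ _).sub (isHomogeneous_X _ _)).mul ih

lemma monomial_supported {c0 : Fin n} {u : Fin n →₀ ℕ} (hu : u c0 = 0) :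
    (monomial u 1 : MvPolynomial (Fin n) K) ∈ supported K ({c0}ᶜ : Set (Fin n)) := by
  rw [mem_supported]
  intro c hc h
  rw [Set.mem_singleton_iff] at h
  subst h
  obtain ⟨w, hw, hcw⟩ := (mem_vars_iff_mem_support c).1 (Finset.mem_coe.1 hc)
  have hw' := Finset.mem_singleton.1 (support_monomial_subset hw)
  subst hw'
  exact (Finsupp.mem_support_iff.1 hcw) hu

lemma Ulem {i : ℕ} {v : (Fin n → ℕ) → K} (hv : Ker4 i v) (c0 : Fin n)
    (L : List (Fin n × Fin n)) (hL0 : dg L c0 = 0) :
    ∀ (r j : ℕ) (u : Fin n →₀ ℕ), u c0 = 0 → (∀ c, u c + dg L c ≤ 3) →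
      ∑ c ∈ Finset.univ.erase c0, (3 - dg L c - u c) = r → j + r ≤ 6 →
      i + (u.degree + L.length) + 3 = j + 3 * n →
      lam v c0 j (monomial u 1 * mon K L) = 0 := by
  intro r
  induction r using Nat.strong_induction_on with
  | _ r ih =>
    intro j u hu0 hu hr hj hdeg
    have hF : monomial u 1 * mon K L ∈ supported K ({c0}ᶜ : Set (Fin n)) :=
      mul_mem (monomial_supported hu0) (mon_supported hL0)
    have hhom : (monomial u (1 : K) * mon K L).IsHomogeneous (u.degree + L.length) :=
      (isHomogeneous_monomial _ rfl).mul (mon_hom L)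
    have h1 := lin_zero (lam v c0 j + (lam v c0 (j + 1)).comp (Eop (Finset.univ.erase c0)))
      (monomial u 1 * mon K L) (by
        intro w hw
        refine rel2 hv c0 (by omega) w (supp_zero hF hw) ?_
        have h3 := degree_of_coeff hhom (mem_support_iff.1 hw)
        omega)
    rw [LinearMap.add_apply, LinearMap.comp_apply, Eop_mon, map_sum] at h1
    · rw [Finset.sum_eq_zero, add_zero] at h1
      · exact h1
      · intro c hc
        rw [map_smul]
        have hc0 := Finset.ne_of_mem_erase hc
        by_cases h : u c + dg L c = 3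
        · have h3 : (3 : K) - u c - dg L c = 0 := by
            rw [sub_sub, ← Nat.cast_add, h]
            norm_num
          rw [h3, zero_smul]
        · have h4 := hu c
          have hr' : ∑ x ∈ Finset.univ.erase c0,
              (3 - dg L x - (u + Finsupp.single c 1 : Fin n →₀ ℕ) x) + 1 = r := by
            rw [← hr, ← Finset.add_sum_erase _ _ hc,
              ← Finset.add_sum_erase _ (fun c => 3 - dg L c - u c) hc]
            have h5 : ∑ x ∈ (Finset.univ.erase c0).erase c,
                (3 - dg L x - (u + Finsupp.single c 1 : Fin n →₀ ℕ) x) =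
                ∑ x ∈ (Finset.univ.erase c0).erase c, (3 - dg L x - u x) := by
              refine Finset.sum_congr rfl fun x hx => ?_
              rw [Finsupp.add_apply, Finsupp.single_apply,
                if_neg (Finset.ne_of_mem_erase hx).symm, add_zero]
            rw [h5, Finsupp.add_apply, Finsupp.single_eq_same]
            omega
          rw [ih _ (by omega) (j + 1) (u + Finsupp.single c 1) ?_ ?_ rfl (by omega) ?_, smul_zero]
          · rw [Finsupp.add_apply, Finsupp.single_apply, if_neg hc0, hu0, add_zero]
          · intro x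
            rw [Finsupp.add_apply, Finsupp.single_apply]
            by_cases hx : c = x
            · subst hx
              rw [if_pos rfl]
              omega
            · rw [if_neg hx, add_zero]
              exact hu x
          · rw [map_add, Finsupp.degree_single]
            omega
    · intro c hc
      rw [Finset.mem_erase, not_and_or] at hc
      rcases hc with hc | hc
      · rw [not_not.1 hc]
        exact ⟨hu0, hL0⟩
      · exact absurd (Finset.mem_univ c) hc

lemma sum_dg (L : List (Fin n × Fin n)) : ∑ c, dg L c = 2 * L.length := by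
  induction L with
  | nil => simp [dg]
  | cons e L ih =>
    rw [Finset.sum_congr rfl fun c _ => dg_cons e L c, Finset.sum_add_distrib, ih,
      List.length_cons]
    have : ∑ c, ind e c = 2 := by
      unfold ind
      rw [Finset.sum_add_distrib, Finset.sum_ite_eq, Finset.sum_ite_eq]
      simp
    omega

lemma sum_def {c0 : Fin n} {L : List (Fin n × Fin n)} (hL0 : dg L c0 = 0) {u : Fin n →₀ ℕ}
    (hu0 : u c0 = 0) (hu : ∀ c, u c + dg L c ≤ 3) :
    ∑ c ∈ Finset.univ.erase c0, (3 - dg L c - u c) + 2 * L.length + u.degree + 3 = 3 * n := by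
  have h1 : ∑ c, ((3 - dg L c - u c) + dg L c + u c) = 3 * n := by
    have : ∀ c, (3 - dg L c - u c) + dg L c + u c = 3 := fun c => by
      have := hu c
      omega
    rw [Finset.sum_congr rfl fun c _ => this c, Finset.sum_const, Finset.card_univ,
      Fintype.card_fin, smul_eq_mul, mul_comm]
  rw [Finset.sum_add_distrib, Finset.sum_add_distrib, sum_dg, ← Finsupp.degree_eq_sum,
    ← Finset.add_sum_erase _ _ (Finset.mem_univ c0), hL0, hu0] at h1
  omega

/-- away from `c0` -/
lemma phi_eq_lam (v : (Fin n → ℕ) → K) {c0 : Fin n} {F : MvPolynomial (Fin n) K}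
    (h : F ∈ supported K ({c0}ᶜ : Set (Fin n))) : phi v F = lam v c0 3 F := by
  have h1 := lin_zero (phi v - lam v c0 3) F (by
    intro w hw
    have h2 := supp_zero h hw
    rw [LinearMap.sub_apply, phi, lam, Lam_monomial, Lam_monomial]
    unfold tht
    have h3 : Function.update (cmp (⇑w)) c0 3 = cmp (⇑w) := by
      have : cmp (⇑w) c0 = 3 := by
        unfold cmp
        rw [h2]
      rw [← this, Function.update_eq_self]
    beta_reduce
    rw [h3, sub_self])
  rwa [LinearMap.sub_apply, sub_eq_zero] at h1

lemma phi_X_mul (v : (Fin n → ℕ) → K) {c0 : Fin n} {F : MvPolynomial (Fin n) K}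
    (h : F ∈ supported K ({c0}ᶜ : Set (Fin n))) : 3 * phi v (X c0 * F) = lam v c0 2 F := by
  have h1 := lin_zero ((3 : K) • (phi v).comp (LinearMap.mulLeft K (X c0)) - lam v c0 2) F (by
    intro w hw
    have h2 := supp_zero h hw
    rw [LinearMap.sub_apply, LinearMap.smul_apply, LinearMap.comp_apply, LinearMap.mulLeft_apply,
      X, monomial_mul, one_mul, add_comm, phi, lam, Lam_monomial, Lam_monomial, smul_eq_mul]
    by_cases hw3 : ∀ c, w c ≤ 3
    · have h3 := tht_add (fun w => v (cmp w)) hw3 c0
      rw [h2, Nat.cast_zero, sub_zero, if_neg (by norm_num), cmp_update] at h3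
      rw [h3]
      unfold tht
      rw [if_pos hw3, sub_self]
    · rw [tht_add_zero _ hw3]
      unfold tht
      rw [if_neg hw3, mul_zero, sub_zero])
  rw [LinearMap.sub_apply, sub_eq_zero] at h1
  exact h1

/-- graph monomials with a vertex of degree at most one -/
theorem U [CharZero K] {i : ℕ} {v : (Fin n → ℕ) → K} (hv : Ker4 i v) (hi : 2 * i = 3 * n + 5)
    (L : List (Fin n × Fin n)) (hM : 2 * L.length + 5 = 3 * n) (hdeg : ∀ c, dg L c ≤ 3)
    (c0 : Fin n) (hc0 : dg L c0 ≤ 1) : phi v (mon K L) = 0 := by
  rcases Nat.eq_zero_or_pos (dg L c0) with h0 | hpos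
  · rw [phi_eq_lam v (mon_supported h0)]
    have h1 := sum_def h0 (u := 0) rfl (fun c => by
      rw [Finsupp.zero_apply, zero_add]
      exact hdeg c)
    rw [map_zero] at h1
    have h2 := Ulem hv c0 L h0 _ 3 0 rfl (fun c => by
      rw [Finsupp.zero_apply, zero_add]
      exact hdeg c) rfl (by omega) (by
      rw [map_zero]
      omega)
    have h3 : (monomial 0 1 : MvPolynomial (Fin n) K) = 1 := rfl
    rwa [h3, one_mul] at h2
  · have h1 : dg L c0 ≠ 0 := by omega
    obtain ⟨e, he, hne⟩ : ∃ e ∈ L, ind e c0 ≠ 0 := by
      by_contra hcon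
      push Not at hcon
      apply h1
      unfold dg
      rw [List.sum_eq_zero]
      intro x hx
      obtain ⟨e, he, rfl⟩ := List.mem_map.1 hx
      exact hcon e he
    have hp := List.perm_cons_erase he
    have hmon : mon K L = (X e.1 - X e.2) * mon K (L.erase e) := by
      rw [← mon_cons]
      unfold mon
      exact (hp.map _).prod_eq
    have hdg : ∀ c, dg L c = ind e c + dg (L.erase e) c := by
      intro c
      rw [← dg_cons]
      unfold dg
      exact (hp.map _).sum_eq
    have hlen : L.length = (L.erase e).length + 1 := by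
      rw [hp.length_eq, List.length_cons]
    set L' := L.erase e with hL'
    have h2 := hdg c0
    have h3 : dg L' c0 = 0 := by omega
    -- the two pieces
    have p1 : phi v (X c0 * mon K L') = 0 := by
      have h4 := phi_X_mul v (mon_supported (K := K) h3)
      have h5 : ∀ c, (0 : Fin n →₀ ℕ) c + dg L' c ≤ 3 := fun c => by
        have := hdg c
        have := hdeg c
        rw [Finsupp.zero_apply]
        omega
      have h6 := sum_def h3 (u := 0) rfl h5
      rw [map_zero] at h6
      have h7 := Ulem hv c0 L' h3 _ 2 0 rfl h5 rfl (by omega) (by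
        rw [map_zero]
        omega)
      have h8 : (monomial 0 1 : MvPolynomial (Fin n) K) = 1 := rfl
      rw [h8, one_mul] at h7
      rw [h7] at h4
      exact (mul_eq_zero.1 h4).resolve_left (by norm_num)
    have p2 : ∀ k, k ≠ c0 → ind e k ≠ 0 → phi v (X k * mon K L') = 0 := by
      intro k hk hek
      have h5 : ∀ c, (Finsupp.single k 1 : Fin n →₀ ℕ) c + dg L' c ≤ 3 := fun c => by
        have h6 := hdg c
        have h7 := hdeg c
        rw [Finsupp.single_apply]
        by_cases hc : k = c
        · subst hc
          rw [if_pos rfl]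
          omega
        · rw [if_neg hc]
          omega
      have h0 : (Finsupp.single k 1 : Fin n →₀ ℕ) c0 = 0 := by
        rw [Finsupp.single_apply, if_neg hk]
      have h6 := sum_def h3 h0 h5
      rw [Finsupp.degree_single] at h6
      have h7 := Ulem hv c0 L' h3 _ 3 _ h0 h5 rfl (by omega) (by
        rw [Finsupp.degree_single]
        omega)
      rw [phi_eq_lam v (c0 := c0)]
      · exact h7
      · exact mul_mem (X_mem_supported.2 hk) (mon_supported h3)
    rw [hmon, sub_mul, map_sub]
    have h9 : ind e c0 = 1 := by omega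
    unfold ind at h9
    by_cases he1 : e.1 = c0
    · have he2 : e.2 ≠ c0 := by
        intro he2
        rw [if_pos he1, if_pos he2] at h9
        omega
      rw [he1, p1, p2 e.2 he2, sub_zero]
      unfold ind
      rw [if_pos rfl]
      omega
    · have he2 : e.2 = c0 := by
        by_contra he2
        rw [if_neg he1, if_neg he2] at h9
        omega
      rw [he2, p1, p2 e.1 he1, sub_zero]
      unfold ind
      rw [if_pos rfl]
      omega

end Pool.Agent.W5h40.WlpQ
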