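import Pool.Agent.W5h40.WlpQ.C

set_option autoImplicit false

open MvPolynomial

namespace Pool.Agent.W5h40.WlpQ

variable {K : Type*} [Field K] {n : ℕ}

/-- the other end point -/
def oth (e : Fin n × Fin n) (t : Fin n) : Fin n := if e.1 = t then e.2 else e.1

/-- the sign -/
noncomputable def eps (K : Type*) [Field K] (e : Fin n × Fin n) (t : Fin n) : K :=
  if e.1 = t then 1 else -1

lemma edge_eq {e : Fin n × Fin n} {t : Fin n} (h : ind e t ≠ 0) :
    (X e.1 - X e.2 : MvPolynomial (Fin n) K) = eps K e t • (X t - X (oth e t)) := by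
  unfold eps oth
  by_cases h1 : e.1 = t
  · rw [if_pos h1, if_pos h1, one_smul, h1]
  · have h2 : e.2 = t := by
      by_contra h2
      exact h (by unfold ind; rw [if_neg h1, if_neg h2])
    rw [if_neg h1, if_neg h1, h2, neg_smul, one_smul, neg_sub]

lemma ind_eq {e : Fin n × Fin n} {t : Fin n} (h : ind e t ≠ 0) (c : Fin n) :
    ind e c = (if t = c then 1 else 0) + (if oth e t = c then 1 else 0) := by
  unfold oth
  by_cases h1 : e.1 = t
  · rw [if_pos h1]
    unfold ind
    rw [h1]
  · have h2 : e.2 = t := by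
      by_contra h2
      exact h (by unfold ind; rw [if_neg h1, if_neg h2])
    rw [if_neg h1]
    unfold ind
    rw [h2, add_comm]

/-- the edge polynomials -/
noncomputable def ed (K : Type*) [Field K] (L : List (Fin n × Fin n)) (e : Fin L.length) :
    MvPolynomial (Fin n) K := X (L.get e).1 - X (L.get e).2

noncomputable def lst (L : List (Fin n × Fin n)) (S : Finset (Fin L.length)) : List (Fin n × Fin n) :=
  S.toList.map L.get

lemma mon_lst (L : List (Fin n × Fin n)) (S : Finset (Fin L.length)) :
    mon K (lst L S) = ∏ e ∈ S, ed K L e := by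
  unfold mon lst
  rw [List.map_map]
  exact Finset.prod_map_toList S _

lemma dg_lst (L : List (Fin n × Fin n)) (S : Finset (Fin L.length)) (c : Fin n) :
    dg (lst L S) c = ∑ e ∈ S, ind (L.get e) c := by
  unfold dg lst
  rw [List.map_map]
  exact Finset.sum_map_toList S _

lemma lst_length (L : List (Fin n × Fin n)) (S : Finset (Fin L.length)) :
    (lst L S).length = S.card := by
  unfold lst
  rw [List.length_map, Finset.length_toList]

lemma mon_univ (L : List (Fin n × Fin n)) : mon K L = ∏ e, ed K L e :=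
  (Fin.prod_univ_fun_getElem L (fun e => (X e.1 - X e.2 : MvPolynomial (Fin n) K))).symm

lemma dg_univ (L : List (Fin n × Fin n)) (c : Fin n) : dg L c = ∑ e, ind (L.get e) c :=
  (Fin.sum_univ_fun_getElem L (fun e => ind e c)).symm

/-- the functional with the edge `e` replaced by `(a, d)` -/
noncomputable def qq (φ : MvPolynomial (Fin n) K →ₗ[K] K) (L : List (Fin n × Fin n)) (a d : Fin n)
    (e : Fin L.length) : K := φ ((X a - X d) * ∏ f ∈ Finset.univ.erase e, ed K L f)

/-- vanishing for graph monomials with a vertex of degree at most one -/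
def HU (φ : MvPolynomial (Fin n) K →ₗ[K] K) (M : ℕ) : Prop :=
  ∀ L : List (Fin n × Fin n), L.length = M → (∀ c, dg L c ≤ 3) → ∀ c0, dg L c0 ≤ 1 →
    φ (mon K L) = 0

lemma q_rel {φ : MvPolynomial (Fin n) K →ₗ[K] K} {M : ℕ} (hU : HU φ M)
    {L : List (Fin n × Fin n)} (hlen : L.length = M) (hdeg : ∀ c, dg L c ≤ 3) {a d : Fin n}
    (had : a ≠ d) (ha : dg L a = 2) (hd : dg L d = 2) {e e' : Fin L.length} {t : Fin n}
    (he : ind (L.get e) t ≠ 0) (he' : ind (L.get e') t ≠ 0) :
    eps K (L.get e) t * qq φ L a d e = eps K (L.get e') t * qq φ L a d e' := by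
  by_cases hee : e = e'
  · rw [hee]
  set R := ∏ f ∈ (Finset.univ.erase e).erase e', ed K L f with hR
  have h1 : ∏ f ∈ Finset.univ.erase e, ed K L f = ed K L e' * R := by
    rw [hR, Finset.mul_prod_erase _ _ (Finset.mem_erase.2 ⟨Ne.symm hee, Finset.mem_univ e'⟩)]
  have h2 : ∏ f ∈ Finset.univ.erase e', ed K L f = ed K L e * R := by
    rw [hR, Finset.erase_right_comm,
      Finset.mul_prod_erase _ _ (Finset.mem_erase.2 ⟨hee, Finset.mem_univ e⟩)]
  have key : φ ((X a - X d) * ((X (oth (L.get e) t) - X (oth (L.get e') t)) * R)) = 0 := by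
    have hc : ∀ c, dg ((a, d) :: (oth (L.get e) t, oth (L.get e') t) ::
        lst L ((Finset.univ.erase e).erase e')) c + 2 * (if t = c then 1 else 0) =
        ind (a, d) c + dg L c := by
      intro c
      rw [dg_cons, dg_cons, dg_lst, dg_univ L c, ← Finset.add_sum_erase _ _ (Finset.mem_univ e),
        ← Finset.add_sum_erase _ _ (Finset.mem_erase.2 ⟨Ne.symm hee, Finset.mem_univ e'⟩),
        ind_eq he c, ind_eq he' c]
      unfold ind
      simp only
      ring
    have had' : ∀ c, ind (a, d) c + dg L c ≤ 3 := by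
      intro c
      unfold ind
      simp only
      by_cases h3 : a = c
      · subst h3
        rw [if_pos rfl, if_neg (Ne.symm had), ha]
      · rw [if_neg h3]
        by_cases h4 : d = c
        · subst h4
          rw [if_pos rfl, hd]
        · rw [if_neg h4]
          have := hdeg c
          omega
    have := hU ((a, d) :: (oth (L.get e) t, oth (L.get e') t) ::
      lst L ((Finset.univ.erase e).erase e')) (by
        rw [List.length_cons, List.length_cons, lst_length,
          Finset.card_erase_of_mem (Finset.mem_erase.2 ⟨Ne.symm hee, Finset.mem_univ e'⟩),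
          Finset.card_erase_of_mem (Finset.mem_univ e), Finset.card_univ, Fintype.card_fin]
        have h5 : 1 < L.length := by
          have h6 := e.2
          have h7 := e'.2
          have h8 : (e : ℕ) ≠ e' := fun h => hee (Fin.ext h)
          omega
        omega) (fun c => by
        have := hc c
        have := had' c
        omega) t (by
        have h5 := hc t
        have h6 := had' t
        rw [if_pos rfl] at h5
        omega)
    rwa [mon_cons, mon_cons, mon_lst] at this
  unfold qq
  rw [h1, h2]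
  unfold ed
  rw [edge_eq he, edge_eq he']
  simp only [smul_mul_assoc, mul_smul_comm, map_smul, smul_eq_mul]
  have h3 : φ ((X a - X d) * ((X t - X (oth (L.get e') t)) * R)) =
      φ ((X a - X d) * ((X t - X (oth (L.get e) t)) * R)) := by
    rw [← sub_eq_zero, ← map_sub, ← key]
    congr 1
    ring
  rw [h3]
  ring

lemma q_init {φ : MvPolynomial (Fin n) K →ₗ[K] K} {M : ℕ} (hU : HU φ M)
    {L : List (Fin n × Fin n)} (hlen : L.length = M) (hdeg : ∀ c, dg L c ≤ 3) {a d : Fin n}
    (had : a ≠ d) (ha : dg L a = 2) (hd : dg L d = 2) {e : Fin L.length}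
    (he : ind (L.get e) a ≠ 0) : eps K (L.get e) a * qq φ L a d e = φ (mon K L) := by
  set R := ∏ f ∈ Finset.univ.erase e, ed K L f with hR
  have h1 : mon K L = ed K L e * R := by
    rw [mon_univ, hR, Finset.mul_prod_erase _ _ (Finset.mem_univ e)]
  have key : φ ((X d - X (oth (L.get e) a)) * R) = 0 := by
    have hc : ∀ c, dg ((d, oth (L.get e) a) :: lst L (Finset.univ.erase e)) c +
        (if a = c then 1 else 0) = (if d = c then 1 else 0) + dg L c := by
      intro c
      rw [dg_cons, dg_lst, dg_univ L c, ← Finset.add_sum_erase _ _ (Finset.mem_univ e),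
        ind_eq he c]
      unfold ind
      simp only
      ring
    have := hU ((d, oth (L.get e) a) :: lst L (Finset.univ.erase e)) (by
        rw [List.length_cons, lst_length,
          Finset.card_erase_of_mem (Finset.mem_univ e), Finset.card_univ, Fintype.card_fin]
        have h6 := e.2
        omega) (fun c => by
        have h5 := hc c
        have h6 := hdeg c
        by_cases h4 : d = c
        · subst h4
          rw [if_pos rfl] at h5
          omega
        · rw [if_neg h4] at h5
          omega) a (by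
        have h5 := hc a
        rw [if_pos rfl, if_neg (Ne.symm had)] at h5
        omega)
    rwa [mon_cons, mon_lst] at this
  unfold qq
  rw [h1, ← hR]
  unfold ed
  rw [edge_eq he, smul_mul_assoc, map_smul, smul_eq_mul]
  congr 1
  rw [← sub_eq_zero, ← map_sub, ← neg_eq_zero, ← map_neg, ← key]
  congr 1
  ring

lemma qq_add (φ : MvPolynomial (Fin n) K →ₗ[K] K) (L : List (Fin n × Fin n)) (a b d : Fin n)
    (e : Fin L.length) : qq φ L a d e = qq φ L a b e + qq φ L b d e := by
  unfold qq
  rw [← map_add, ← add_mul, sub_add_sub_cancel]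

lemma eps_oth {e : Fin n × Fin n} {t : Fin n} (h : ind e t ≠ 0) (hne : e.1 ≠ e.2) :
    ind e (oth e t) ≠ 0 ∧ eps K e (oth e t) = -eps K e t ∧ oth e (oth e t) = t := by
  unfold eps oth
  by_cases h1 : e.1 = t
  · rw [if_pos h1, if_pos h1, if_neg hne, if_neg hne]
    refine ⟨?_, rfl, h1⟩
    unfold ind
    rw [if_pos rfl]
    omega
  · have h2 : e.2 = t := by
      by_contra h2
      exact h (by unfold ind; rw [if_neg h1, if_neg h2])
    rw [if_neg h1, if_neg h1, if_pos rfl, if_pos rfl, neg_neg]
    refine ⟨?_, rfl, h2⟩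
    unfold ind
    rw [if_pos rfl]
    omega

/-- the level sets -/
def Lev (φ : MvPolynomial (Fin n) K →ₗ[K] K) (L : List (Fin n × Fin n)) (a d d' : Fin n)
    (x y : K) (t : Fin n) : Prop :=
  ∀ e : Fin L.length, ind (L.get e) t ≠ 0 →
    eps K (L.get e) t * qq φ L a d e = x ∧ eps K (L.get e) t * qq φ L a d' e = y

lemma lev_oth {φ : MvPolynomial (Fin n) K →ₗ[K] K} {M : ℕ} (hU : HU φ M)
    {L : List (Fin n × Fin n)} (hlen : L.length = M) (hdeg : ∀ c, dg L c ≤ 3) {a d d' : Fin n}
    (had : a ≠ d) (had' : a ≠ d') (ha : dg L a = 2) (hd : dg L d = 2) (hd' : dg L d' = 2)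
    {x y : K} {e : Fin L.length} {t : Fin n}
    (he : ind (L.get e) t ≠ 0) (hne : (L.get e).1 ≠ (L.get e).2)
    (h : Lev φ L a d d' x y t) : Lev φ L a d d' (-x) (-y) (oth (L.get e) t) := by
  obtain ⟨h1, h2⟩ := h e he
  obtain ⟨g1, g2, _⟩ := eps_oth (K := K) he hne
  intro e' he'
  constructor
  · rw [q_rel hU hlen hdeg had ha hd he' g1, g2, neg_mul, h1]
  · rw [q_rel hU hlen hdeg had' ha hd' he' g1, g2, neg_mul, h2]

theorem Z [CharZero K] {φ : MvPolynomial (Fin n) K →ₗ[K] K} {M : ℕ} (hU : HU φ M)
    (hM : 2 * M + 5 = 3 * n)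
    {L : List (Fin n × Fin n)} (hlen : L.length = M) (hdeg : ∀ c, dg L c ≤ 3) :
    φ (mon K L) = 0 := by
  classical
  by_contra hx
  set x := φ (mon K L) with hxd
  have hne : ∀ e : Fin L.length, (L.get e).1 ≠ (L.get e).2 := by
    intro e he
    apply hx
    rw [hxd, mon_univ, Finset.prod_eq_zero (Finset.mem_univ e), map_zero]
    unfold ed
    rw [he, sub_self]
  have h2 : ∀ c, 2 ≤ dg L c := by
    intro c
    by_contra hc
    exact hx (hU L hlen hdeg c (by omega))
  set T : Finset (Fin n) := Finset.univ.filter fun c => dg L c = 2 with hT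
  have hTc : T.card = 5 := by
    have h3 : ∑ c, (dg L c + if dg L c = 2 then 1 else 0) = 3 * n := by
      have : ∀ c, (dg L c + if dg L c = 2 then 1 else 0) = 3 := by
        intro c
        have := h2 c
        have := hdeg c
        split_ifs <;> omega
      rw [Finset.sum_congr rfl fun c _ => this c, Finset.sum_const, Finset.card_univ,
        Fintype.card_fin, smul_eq_mul, mul_comm]
    rw [Finset.sum_add_distrib, sum_dg, ← Finset.card_filter] at h3
    rw [hT]
    omega
  obtain ⟨a, haT, d, hdT, d', hdT', had, had', hdd'⟩ := Finset.two_lt_card.1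
    (show 2 < T.card by omega)
  have ha := (Finset.mem_filter.1 haT).2
  have hd := (Finset.mem_filter.1 hdT).2
  have hd' := (Finset.mem_filter.1 hdT').2
  -- an edge at every vertex
  have hex : ∀ t, ∃ e : Fin L.length, ind (L.get e) t ≠ 0 := by
    intro t
    by_contra hcon
    push Not at hcon
    have h3 := h2 t
    rw [dg_univ, Finset.sum_eq_zero fun e _ => hcon e] at h3
    omega
  -- values at deficient vertices
  have V1 : ∀ {b c : Fin n}, b ≠ c → dg L b = 2 → dg L c = 2 → ∀ e : Fin L.length,
      ind (L.get e) b ≠ 0 → eps K (L.get e) b * qq φ L b c e = x :=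
    fun hbc hb hc e he => q_init hU hlen hdeg hbc hb hc he
  have V2 : ∀ {b c : Fin n}, b ≠ c → dg L b = 2 → dg L c = 2 → ∀ e : Fin L.length,
      ind (L.get e) c ≠ 0 → eps K (L.get e) c * qq φ L b c e = -x := by
    intro b c hbc hb hc e he
    have h3 := V1 hbc.symm hc hb e he
    have h4 : qq φ L b c e = -qq φ L c b e := by
      unfold qq
      rw [← map_neg, ← neg_mul, neg_sub]
    rw [h4, mul_neg, h3]
  have V3 : ∀ {b c t : Fin n}, b ≠ t → c ≠ t → dg L b = 2 → dg L c = 2 → dg L t = 2 →
      ∀ e : Fin L.length, ind (L.get e) t ≠ 0 → eps K (L.get e) t * qq φ L b c e = 0 := by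
    intro b c t hbt hct hb hc ht e he
    rw [qq_add φ L b t c e, mul_add, V2 hbt hb ht e he, V1 hct.symm ht hc e he, neg_add_cancel]
  have hxx : x ≠ -x := by
    intro h
    apply hx
    have h3 : (2 : K) * x = 0 := by linear_combination h
    exact (mul_eq_zero.1 h3).resolve_left two_ne_zero
  -- the level sets
  set A : Finset (Fin n) := Finset.univ.filter (Lev φ L a d d' x x) with hA
  set B : Finset (Fin n) := Finset.univ.filter (Lev φ L a d d' (-x) (-x)) with hB
  have hAB : ∀ e : Fin L.length, ∀ t, ind (L.get e) t ≠ 0 →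
      (t ∈ A ↔ oth (L.get e) t ∈ B) := by
    intro e t he
    obtain ⟨g1, g2, g3⟩ := eps_oth (K := K) he (hne e)
    constructor
    · intro h
      refine Finset.mem_filter.2 ⟨Finset.mem_univ _, ?_⟩
      exact lev_oth hU hlen hdeg had had' ha hd hd' he (hne e) (Finset.mem_filter.1 h).2
    · intro h
      refine Finset.mem_filter.2 ⟨Finset.mem_univ _, ?_⟩
      have h3 := lev_oth hU hlen hdeg had had' ha hd hd' g1 (hne e) (Finset.mem_filter.1 h).2
      rwa [g3, neg_neg] at h3
  have hsum : ∑ t ∈ A, dg L t = ∑ t ∈ B, dg L t := by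
    have h3 : ∀ S : Finset (Fin n), ∑ t ∈ S, dg L t = ∑ e : Fin L.length,
        ((if (L.get e).1 ∈ S then 1 else 0) + (if (L.get e).2 ∈ S then 1 else 0)) := by
      intro S
      rw [Finset.sum_congr rfl fun t _ => dg_univ L t, Finset.sum_comm]
      refine Finset.sum_congr rfl fun e _ => ?_
      unfold ind
      rw [Finset.sum_add_distrib, Finset.sum_ite_eq, Finset.sum_ite_eq]
    rw [h3, h3]
    refine Finset.sum_congr rfl fun e _ => ?_
    have i1 : ind (L.get e) (L.get e).1 ≠ 0 := by
      unfold ind
      rw [if_pos rfl]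
      omega
    have i2 : ind (L.get e) (L.get e).2 ≠ 0 := by
      unfold ind
      rw [if_pos (rfl : (L.get e).2 = (L.get e).2)]
      omega
    have o1 : oth (L.get e) (L.get e).1 = (L.get e).2 := by
      unfold oth
      rw [if_pos rfl]
    have o2 : oth (L.get e) (L.get e).2 = (L.get e).1 := by
      unfold oth
      rw [if_neg (hne e)]
    have k1 := hAB e _ i1
    have k2 := hAB e _ i2
    rw [o1] at k1
    rw [o2] at k2
    rw [add_comm]
    congr 1
    · exact if_congr k2 rfl rfl
    · exact if_congr k1 rfl rfl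
  have haA : a ∈ A := Finset.mem_filter.2 ⟨Finset.mem_univ _, fun e he =>
    ⟨V1 had ha hd e he, V1 had' ha hd' e he⟩⟩
  -- other deficient vertices
  have hT1 : ∀ t, dg L t = 2 → t ∈ A → t = a := by
    intro t ht htA
    by_contra hta
    obtain ⟨e, he⟩ := hex t
    obtain ⟨g1, g2⟩ := (Finset.mem_filter.1 htA).2 e he
    by_cases htd : t = d
    · subst htd
      rw [V2 had ha hd e he] at g1
      exact hxx g1.symm
    · rw [V3 (Ne.symm hta) (Ne.symm htd) ha hd ht e he] at g1
      exact hx g1.symm
  have hT2 : ∀ t, dg L t = 2 → t ∉ B := by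
    intro t ht htB
    obtain ⟨e, he⟩ := hex t
    obtain ⟨g1, g2⟩ := (Finset.mem_filter.1 htB).2 e he
    by_cases hta : t = a
    · subst hta
      rw [V1 had ha hd e he] at g1
      exact hxx g1
    · by_cases htd : t = d
      · subst htd
        rw [V3 had hdd'.symm ha hd' hd e he] at g2
        exact hx (neg_eq_zero.1 g2.symm)
      · rw [V3 (Ne.symm hta) (Ne.symm htd) ha hd ht e he] at g1
        exact hx (neg_eq_zero.1 g1.symm)
  have hA3 : ∑ t ∈ A, dg L t + 1 = 3 * A.card := by
    rw [← Finset.add_sum_erase _ _ haA, ha]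
    have h3 : ∀ t ∈ A.erase a, dg L t = 3 := by
      intro t ht
      have h4 := h2 t
      have h5 := hdeg t
      have h6 : dg L t ≠ 2 := fun h7 => (Finset.ne_of_mem_erase ht)
        (hT1 t h7 (Finset.mem_of_mem_erase ht))
      omega
    rw [Finset.sum_congr rfl h3, Finset.sum_const, smul_eq_mul]
    have := Finset.card_erase_add_one haA
    omega
  have hB3 : ∑ t ∈ B, dg L t = 3 * B.card := by
    have h3 : ∀ t ∈ B, dg L t = 3 := by
      intro t ht
      have h4 := h2 t
      have h5 := hdeg t
      have h6 : dg L t ≠ 2 := fun h7 => hT2 t h7 ht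
      omega
    rw [Finset.sum_congr rfl h3, Finset.sum_const, smul_eq_mul, mul_comm]
  omega

end Pool.Agent.W5h40.WlpQ
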